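import Pool.Agent.Helper88.HG.RatPlace2

/-!
# The converse: a rational branch point gives sections of all twists
-/

set_option autoImplicit false

namespace Pool.Agent.L

open IntermediateField Pool.Agent.Helper91.Sect

theorem conv {k K0 : Type} [Field k] [CharZero k] [Field K0] [Algebra k K0] (h : K0)
    (P : ValuationSubring K0) (hk : ∀ a : k, algebraMap k K0 a ∈ P)
    (hodd : ∀ z : K0, P.valuation h ≠ P.valuation z ^ 2)
    (hres : ∀ x ∈ P, ∃ a : k, P.valuation (x - algebraMap k K0 a) < 1) (c : k) (hc : c ≠ 0) :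
    ∃ (K : Type) (_ : Field K) (_ : Algebra k K) (_ : Algebra K0 K) (_ : IsScalarTower k K0 K)
      (y : K), y ^ 2 = algebraMap k K c * algebraMap K0 K h ∧
      IntermediateField.adjoin K0 {y} = ⊤ ∧ Nonempty (GaloisSection k K) := by
  classical
  have hK0 : CharZero K0 := charZero_of_injective_algebraMap (algebraMap k K0).injective
  let C := AlgebraicClosure K0
  have hgal : IsGalois K0 C := IsAlgClosure.isGalois K0 _
  obtain ⟨w, hw⟩ : ∃ w : C, w ^ 2 = algebraMap K0 C (algebraMap k K0 c * h) :=
    IsAlgClosed.exists_pow_nat_eq _ two_pos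
  obtain ⟨Q, hQ, hA⟩ := exists_above (k := K0) (C := C) (O := P)
  -- `c h` is odd at `P`
  have hc1 : P.valuation (algebraMap k K0 c) = 1 := by
    have h1 : P.valuation (algebraMap k K0 c) ≤ 1 := (P.valuation_le_one_iff _).2 (hk c)
    have h2 : P.valuation (algebraMap k K0 c⁻¹) ≤ 1 := (P.valuation_le_one_iff _).2 (hk c⁻¹)
    rw [map_inv₀, map_inv₀] at h2
    have h3 : P.valuation (algebraMap k K0 c) ≠ 0 := by simpa using hc
    exact le_antisymm h1 ((inv_le_one₀ (zero_lt_iff.2 h3)).1 h2)
  have hodd' : ∀ z : K0, P.valuation (algebraMap k K0 c * h) ≠ P.valuation z ^ 2 := by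
    intro z
    rw [map_mul, hc1, one_mul]
    exact hodd z
  let K : IntermediateField K0 C := K0⟮w⟯
  have hwK : w ∈ K := IntermediateField.mem_adjoin_simple_self K0 w
  let V : ValuationSubring K := (locW Q).comap (algebraMap K C)
  have hV : ∀ z : K, z ∈ V ↔ (z : C) ∈ locW Q := fun z => Iff.rfl
  have hVlt : ∀ z : K, (locW Q).valuation (z : C) < 1 → V.valuation z < 1 := by
    intro z hz
    rw [← V.mem_nonunits_iff, V.mem_nonunits_iff_or, hV]
    have h1 := (locW Q).mem_nonunits_iff_or.1 ((locW Q).mem_nonunits_iff.2 hz)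
    rcases h1 with h1 | h1
    · left; exact Subtype.ext h1
    · right; exact h1
  -- values of the elements of `K0`
  have hle : ∀ a : K0, (locW Q).valuation (algebraMap K0 C a) ≤ 1 → a ∈ P := by
    intro a ha
    by_contra hcon
    have h1 : 1 < P.valuation a := not_le.1 (fun h => hcon ((P.valuation_le_one_iff a).1 h))
    have h2 : P.valuation a⁻¹ < 1 := by
      rw [map_inv₀]; exact inv_lt_one_of_one_lt₀ h1
    have h3 := locW_algebraMap_lt Q hA h2
    rw [map_inv₀, map_inv₀] at h3
    have h4 : (locW Q).valuation (algebraMap K0 C a) ≠ 0 := by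
      intro h0
      have : a = 0 := by simpa using h0
      rw [this] at h1
      simp at h1
    have h5 : 1 < (locW Q).valuation (algebraMap K0 C a) :=
      (inv_lt_one₀ (zero_lt_iff.2 h4)).1 h3
    exact absurd ha (not_le.2 h5)
  letI : Algebra k K := ((algebraMap K0 K).comp (algebraMap k K0)).toAlgebra
  haveI : IsScalarTower k K0 K := IsScalarTower.of_algebraMap_eq fun _ => rfl
  refine ⟨K, inferInstance, inferInstance, inferInstance, inferInstance, ⟨w, hwK⟩, ?_, ?_, ?_⟩
  · apply Subtype.ext
    show w ^ 2 = _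
    rw [hw, map_mul]
    rfl
  · have h1 : IntermediateField.map K.val (IntermediateField.adjoin K0 {(⟨w, hwK⟩ : K)}) =
        IntermediateField.map K.val ⊤ := by
      rw [IntermediateField.adjoin_map, ← AlgHom.fieldRange_eq_map, IntermediateField.fieldRange_val,
        Set.image_singleton]
      rfl
    exact IntermediateField.map_injective _ h1
  · refine Pool.Agent.Helper88.HG.section_of_place V ?_ ?_
    · intro a
      rw [hV]
      have h1 : P.valuation (algebraMap k K0 a) ≤ 1 := (P.valuation_le_one_iff _).2 (hk a)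
      exact ((locW Q).valuation_le_one_iff _).1 (locW_algebraMap_le (Q := Q) h1)
    · intro z hz
      rw [hV] at hz
      obtain ⟨α, β, hαβ⟩ := mem_adjoin_sqrt hw z.2
      have hz1 : (locW Q).valuation (algebraMap K0 C α + algebraMap K0 C β * w) ≤ 1 := by
        rw [← hαβ]; exact ((locW Q).valuation_le_one_iff _).2 hz
      rw [val_add_aux Q hA hodd' hw] at hz1
      have hα : α ∈ P := hle α ((le_max_left _ _).trans hz1)
      have hβ : (locW Q).valuation (algebraMap K0 C β * w) < 1 := by
        refine lt_of_le_of_ne ((le_max_right _ _).trans hz1) ?_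
        by_cases h0 : β = 0
        · simp [h0]
        · have h1 := val_ne_aux Q hA hodd' hw (α := 1) h0
          rw [map_one, map_one] at h1
          exact h1.symm
      obtain ⟨a, ha⟩ := hres α hα
      refine ⟨a, hVlt _ ?_⟩
      have h2 : ((z - algebraMap k K a : K) : C) =
          algebraMap K0 C (α - algebraMap k K0 a) + algebraMap K0 C β * w := by
        have h3 : ((z - algebraMap k K a : K) : C) = (z : C) - algebraMap K0 C (algebraMap k K0 a) :=
          rfl
        rw [h3, hαβ, map_sub]; ring
      rw [h2]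
      refine Valuation.map_add_lt _ (locW_algebraMap_lt Q hA ha) hβ

end Pool.Agent.L
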