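import Pool.Agent.Helper13.HG.Defs
import Pool.Agent.SC.Defs2
import Pool.Agent.SC.W1

/-!
# Project L (MP_e66f84_ag): quadratic twists of an arbitrary curve with an involution

`k` number field, `K0 / k` the function field of a curve `Y`, `h ∈ K0`, the curve `X : y² = h` is a
double cover of `Y`, of genus at least one over the algebraic closure.  Twists: `y² = c h`.
Block statements.
-/

set_option autoImplicit false

namespace Pool.Agent.L

open VC IntermediateField NumberField IsDedekindDomain Pool.Agent.SC Pool.Agent.Helper91.Sect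
open Pool.Agent.HG (Pr nm IsOdd)

noncomputable section

/-! ## The local theorem -/

/-- `τ` is an inertia element at the valuation ring `O` of `E`. -/
structure Inert {E : Type} [Field E] (O : ValuationSubring E) (τ : E ≃+* E) : Prop where
  stab : ∀ z, τ z ∈ O ↔ z ∈ O
  res : ∀ z ∈ O, O.valuation (τ z - z) < 1

/-- `h` and `T` act on `Ω` like a Frobenius element `σ` and an inertia element `τ` at the valuation
ring `O` of the constants `E`, and satisfy the tame relation up to wild inertia. -/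
structure FPair {E Ω : Type} [Field E] [Field Ω] [Algebra E Ω] (O : ValuationSubring E)
    (σ τ : E ≃+* E) (p f : ℕ) (h T : Ω ≃+* Ω) : Prop where
  frob : IsFrobAt O σ p f
  inert : Inert O τ
  hσ : ∀ c, h (algebraMap E Ω c) = algebraMap E Ω (σ c)
  hτ : ∀ c, T (algebraMap E Ω c) = algebraMap E Ω (τ c)
  rel : ∀ (Z : Finset Ω) (m : ℕ), m ≠ 0 → ∃ a j : ℕ, (∀ ζ : E, ζ ^ m = 1 → σ ζ = ζ ^ a) ∧
    ∀ z ∈ Z, (((T ^ a)⁻¹ * (h * T * h⁻¹)) ^ p ^ j) z = z

/-- BLOCK K1 (weights in mixed characteristic, ring form): an inertia element which is trivial on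
the ring `B` (on finitely many generators, up to constants) is trivial on the `ℓ`-th roots of
functions whose divisor is divisible by `ℓ`. -/
def StmtK1 : Prop :=
  ∀ (E Ω B : Type) [Field E] [IsAlgClosed E] [CharZero E] [Field Ω] [Algebra E Ω] [CommRing B]
    [IsDomain B] [IsDedekindDomain B] [Algebra E B] [Algebra B Ω] [IsScalarTower E B Ω]
    (deg : B → ℕ), OnePt E B deg → Function.Injective (algebraMap B Ω) →
    (∀ I : Ideal B, I ≠ ⊥ → ∀ n : ℕ, 0 < n → ∃ J : Ideal B, J ≠ ⊥ ∧ SameClass I (J ^ n)) →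
    ∀ ℓ : ℕ, ℓ.Prime → (∀ I : Ideal B, PowTor ℓ I → ∃ w : Ω, RootOf ℓ I w) →
    ∀ (I : Ideal B) (w : Ω), RootOf ℓ I w →
    ∃ (Z : Finset Ω) (S : Finset E), (∀ z ∈ Z, ∃ b : B, algebraMap B Ω b = z) ∧ (∀ s ∈ S, s ≠ 0) ∧
      ∀ (O : ValuationSubring E) (σ τ : E ≃+* E) (p f : ℕ) (h T : Ω ≃+* Ω),
      FPair O σ τ p f h T → (∀ s ∈ S, O.valuation s = 1) → (∀ z ∈ Z, h z = z) →
      (∀ z ∈ Z, T z = z) → ∀ ζ : E, ζ ^ ℓ = 1 → T w = algebraMap E Ω ζ * w → ζ = 1

/-- BLOCK K2 (from K1): if the inertia element `T` acts on a level `N` like the automorphism `b` of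
prime order (on finitely many elements), then `b` fixes a place of `N`. -/
def StmtK2 : Prop :=
  ∀ (E U : Type) [Field E] [IsAlgClosed E] [CharZero E] [Field U] [Algebra E U]
    (M : IntermediateField E U), IsCover M →
    ∀ (N : IntermediateField E U), IsFunctionField E N → ∀ (b : N ≃ₐ[E] N) (ℓ : ℕ), ℓ.Prime →
    b ^ ℓ = 1 → b ≠ 1 → (∀ P : Place E N, ∃ x ∈ P.ring, b x ∉ P.ring) →
    ∃ (Z : Finset N) (S : Finset E), (∀ s ∈ S, s ≠ 0) ∧
      ∀ (O : ValuationSubring E) (σ τ : E ≃+* E) (p f : ℕ) (h T : U ≃+* U),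
      FPair O σ τ p f h T → (∀ s ∈ S, O.valuation s = 1) → (∀ z ∈ Z, h z = z) →
      (∀ z ∈ Z, T z = b z) → False

/-! ## The geometric situation -/

/-- `L0 = E K0` -/
def L0 (E : Type) (K0 : Type) {U : Type} [Field E] [Field K0] [Field U] [Algebra E U]
    [Algebra K0 U] : IntermediateField E U :=
  IntermediateField.adjoin E (Set.range (algebraMap K0 U))

/-- `M = E K0 (r)` -/
def MM (E : Type) (K0 : Type) {U : Type} [Field E] [Field K0] [Field U] [Algebra E U]
    [Algebra K0 U] (r : U) : IntermediateField E U :=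
  IntermediateField.adjoin E (Set.range (algebraMap K0 U) ∪ {r})

/-- `E` is the algebraic closure of `k`, `L0 = E K0` the function field of `Y` over `E`, `M = L0(r)`,
`r² = h`, the function field of `X`, not rational, `U` its maximal unramified extension. -/
structure Geo (k K0 E U : Type) [Field k] [Field K0] [Field E] [Field U] [Algebra k K0]
    [Algebra k E] [Algebra E U] [Algebra K0 U] [Algebra k U] (h : K0) (r : U) : Prop where
  algE : Algebra.IsAlgebraic k E
  clE : IsAlgClosed E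
  ff : IsFunctionField E (L0 E K0 (U := U))
  rsq : r ^ 2 = algebraMap K0 U h
  rnot : r ∉ L0 E K0 (U := U)
  cover : IsCover (MM E K0 r)
  nonrat : ∀ y : MM E K0 r, IntermediateField.adjoin E {y} ≠ ⊤
  normal : Normal K0 U

/-- the action on `U` of a section of (a curve over) the twist `y² = c h` -/
structure Act {k K0 E U : Type} [Field k] [Field K0] [Field E] [Field U] [Algebra k K0]
    [Algebra k E] [Algebra E U] [Algebra K0 U] (r : U) (c : k) (Φ : (E ≃ₐ[k] E) →* (U ≃+* U)) :
    Prop where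
  const : ∀ g (e : E), Φ g (algebraMap E U e) = algebraMap E U (g e)
  fixK : ∀ g (x : K0), Φ g (algebraMap K0 U x) = algebraMap K0 U x
  tw : ∀ g (d : E), d ^ 2 = algebraMap k E c → Φ g r * algebraMap E U (g d) = algebraMap E U d * r
  cont : ∀ z : U, ∃ L : IntermediateField k E, FiniteDimensional k L ∧
    ∀ g : E ≃ₐ[k] E, (∀ x ∈ L, g x = x) → Φ g z = z

/-- Some curve over `k` which maps onto `y² = c h` has a Galois section. -/
def HasSec {k K0 : Type} [Field k] [Field K0] [Algebra k K0] (h : K0) (c : k) : Prop :=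
  ∃ (K : Type) (_ : Field K) (_ : Algebra k K) (_ : Algebra K0 K) (_ : IsScalarTower k K0 K) (y : K),
    y ^ 2 = algebraMap k K c * algebraMap K0 K h ∧ Nonempty (GaloisSection k K)

/-- the constants in the algebraic closure of `K0` -/
def cst (k K0 : Type) [Field k] [Field K0] [Algebra k K0] : Set (AlgebraicClosure K0) :=
  {z | IsAlgebraic k z}

/-- `K0` is a function field of one variable over `k`, `y² = h` is geometrically irreducible, and
not rational over the algebraic closure of `k`. -/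
structure GoodCurve (k : Type) {K0 : Type} [Field k] [Field K0] [Algebra k K0] (h : K0) : Prop where
  ff : IsFunctionField k K0
  irr : ∀ r : AlgebraicClosure K0, r ^ 2 = algebraMap K0 (AlgebraicClosure K0) h →
    r ∉ Subfield.closure (cst k K0 ∪ Set.range (algebraMap K0 (AlgebraicClosure K0)))
  nonrat : ∀ r : AlgebraicClosure K0, r ^ 2 = algebraMap K0 (AlgebraicClosure K0) h →
    ∀ y : AlgebraicClosure K0,
      Subfield.closure (cst k K0 ∪ Set.range (algebraMap K0 (AlgebraicClosure K0)) ∪ {r}) ≠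
        Subfield.closure (cst k K0 ∪ {y})

/-- BLOCK TR (transfer): the fixed situation `U`, and the action of all sections on it. -/
def StmtTR : Prop :=
  ∀ (k K0 : Type) [Field k] [NumberField k] [Field K0] [Algebra k K0] (h : K0), GoodCurve k h →
    ∃ (E U : Type) (_ : Field E) (_ : Field U) (_ : Algebra k E) (_ : Algebra E U)
      (_ : Algebra K0 U) (_ : Algebra k U) (_ : IsScalarTower k E U) (_ : IsScalarTower k K0 U)
      (r : U), Geo k K0 E U h r ∧ ∀ c : k, c ≠ 0 → HasSec h c →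
        ∃ Φ : (E ≃ₐ[k] E) →* (U ≃+* U), Act (K0 := K0) r c Φ

/-- BLOCK K3 (agreement): a finite set `Z` of `U` is contained in a finite set `Z'` stable under all
automorphisms over `K0`, such that every automorphism over `K0` which fixes finitely many elements of
`E` acts on `Z'` like an automorphism of the level `N = E K0 (Z')` over `L0`. -/
def StmtK3 : Prop :=
  ∀ (k K0 E U : Type) [Field k] [CharZero k] [Field K0] [Field E] [Field U] [Algebra k K0]
    [Algebra k E] [Algebra E U] [Algebra K0 U] [Algebra k U] [IsScalarTower k E U]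
    [IsScalarTower k K0 U] (h : K0) (r : U), Geo k K0 E U h r → ∀ Z : Finset U,
    ∃ (Z' : Finset U) (C : Finset E) (N : IntermediateField E U), Z ⊆ Z' ∧ r ∈ Z' ∧
      N = IntermediateField.adjoin E (Set.range (algebraMap K0 U) ∪ Z') ∧ IsFunctionField E N ∧
      Finite {b : N ≃ₐ[E] N // ∀ x : N, (x : U) ∈ L0 E K0 (U := U) → b x = x} ∧
      (∀ T : U ≃+* U, (∀ x : K0, T (algebraMap K0 U x) = algebraMap K0 U x) → ∀ z ∈ Z', T z ∈ Z') ∧
      ∀ T : U ≃+* U, (∀ x : K0, T (algebraMap K0 U x) = algebraMap K0 U x) →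
        (∀ e : E, ∃ e' : E, T (algebraMap E U e) = algebraMap E U e') →
        (∀ e ∈ C, T (algebraMap E U e) = algebraMap E U e) →
        ∃ b : N ≃ₐ[E] N, (∀ x : N, (x : U) ∈ L0 E K0 (U := U) → b x = x) ∧
          ∀ z : N, (z : U) ∈ Z' → T z = b z

/-- the place of `M` below the place `Q` of `N` is the one below `Q'` -/
def SamePlace {E U : Type} [Field E] [Field U] [Algebra E U] (M N : IntermediateField E U)
    (Q Q' : Place E N) : Prop :=
  ∀ x : N, (x : U) ∈ M → (x ∈ Q.ring ↔ x ∈ Q'.ring)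

/-- BLOCK K4 (compactness and uniqueness of the fixed place): for all large levels `N` all places
of `N` fixed by an involution over `L0` which moves `r` lie over one place of `M`. -/
def StmtK4 : Prop :=
  ∀ (k K0 E U : Type) [Field k] [NumberField k] [Field K0] [Field E] [Field U] [Algebra k K0]
    [Algebra k E] [Algebra E U] [Algebra K0 U] [Algebra k U] [IsScalarTower k E U]
    [IsScalarTower k K0 U] (h : K0) (r : U), Geo k K0 E U h r →
    ∃ Z : Finset U, ∀ N : IntermediateField E U, MM E K0 r ≤ N → (∀ z ∈ Z, z ∈ N) →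
      IsFunctionField E N → ∀ b : N ≃ₐ[E] N,
      (∀ x : N, (x : U) ∈ L0 E K0 (U := U) → b x = x) → b ^ 2 = 1 →
      (∀ x : N, (x : U) = r → b x = -x) →
      ∀ Q Q' : Place E N, (∀ x ∈ Q.ring, b x ∈ Q.ring) → (∀ x ∈ Q'.ring, b x ∈ Q'.ring) →
      SamePlace (MM E K0 r) N Q Q'

/-! ## Arithmetic -/

/-- `O` is a valuation ring of `E` over the prime `v` of `k` -/
def OverV {k E : Type} [Field k] [NumberField k] [Field E] [Algebra k E] (v : Pr k)
    (O : ValuationSubring E) : Prop :=
  ∀ x : k, algebraMap k E x ∈ O ↔ v.valuation k x ≤ 1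

/-- BLOCK AR: for almost all primes `v` the finitely many numbers `S` are units and the finitely many
numbers `C` are fixed by inertia. -/
def StmtAR : Prop :=
  ∀ (k E : Type) [Field k] [NumberField k] [Field E] [IsAlgClosed E] [Algebra k E]
    [Algebra.IsAlgebraic k E] (S C : Finset E), (∀ s ∈ S, s ≠ 0) →
    ∃ Bad : Set (Pr k), Bad.Finite ∧ ∀ v ∉ Bad, ∀ O : ValuationSubring E, OverV v O →
      (∀ s ∈ S, O.valuation s = 1) ∧
      ∀ τ : E ≃ₐ[k] E, Inert O τ.toRingEquiv → ∀ c ∈ C, τ c = c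

/-- `F` is a Frobenius element at the valuation ring `O` of `E` over the prime `v` of `k` -/
structure DecPt {k E : Type} [Field k] [NumberField k] [Field E] [Algebra k E] (v : Pr k)
    (O : ValuationSubring E) (F : E ≃ₐ[k] E) (p f : ℕ) : Prop where
  above : OverV v O
  norm : nm v = p ^ f
  frob : IsFrobAt O F.toRingEquiv p f
  odd : ∀ c : k, IsOdd v c → ∃ τ : E ≃ₐ[k] E, Inert O τ.toRingEquiv ∧
    ∀ d : E, d ^ 2 = algebraMap k E c → τ d = -d
  tame : ∀ γ τ : E ≃ₐ[k] E, (∀ z, γ z ∈ O ↔ z ∈ O) → Inert O τ.toRingEquiv →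
    ∀ L : IntermediateField k E, FiniteDimensional k L → ∀ m : ℕ, m ≠ 0 →
    ∃ a j : ℕ, (∀ ζ : E, ζ ^ m = 1 → γ ζ = ζ ^ a) ∧
      ∀ z ∈ L, (((τ ^ a)⁻¹ * (γ * τ * γ⁻¹)) ^ p ^ j) z = z

/-- BLOCK FR: Frobenius elements exist (at all primes; `IsOdd` is used at all of them, also at
primes above `2`). -/
def StmtFR : Prop :=
  ∀ (k E : Type) [Field k] [NumberField k] [Field E] [IsAlgClosed E] [Algebra k E]
    [Algebra.IsAlgebraic k E] (v : Pr k),
    ∃ (O : ValuationSubring E) (F : E ≃ₐ[k] E) (p f : ℕ), DecPt v O F p f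

/-- some point `P` of `Y` at which `h` has odd valuation, and an embedding of its residue field in
`E`, are fixed by `g` -/
def FixesBranch {k K0 E : Type} [Field k] [Field K0] [Field E] [Algebra k K0] [Algebra k E]
    (h : K0) (g : E ≃ₐ[k] E) : Prop :=
  ∃ (P : ValuationSubring K0) (φ : P →+* E), (∀ a : k, algebraMap k K0 a ∈ P) ∧
    (∀ z : K0, P.valuation h ≠ P.valuation z ^ 2) ∧
    (∀ (a : k) (x : P), (x : K0) = algebraMap k K0 a → φ x = algebraMap k E a) ∧
    ∀ x : P, g (φ x) = φ x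

/-- BLOCK K5 (the local theorem), from K2, K3, K4, AR. -/
def StmtK5 : Prop :=
  ∀ (k K0 E U : Type) [Field k] [NumberField k] [Field K0] [Field E] [Field U] [Algebra k K0]
    [Algebra k E] [Algebra E U] [Algebra K0 U] [Algebra k U] [IsScalarTower k E U]
    [IsScalarTower k K0 U] (h : K0) (r : U), Geo k K0 E U h r →
    ∃ Bad : Set (Pr k), Bad.Finite ∧ ∀ v ∉ Bad, ∀ c : k, c ≠ 0 → IsOdd v c →
      ∀ Φ : (E ≃ₐ[k] E) →* (U ≃+* U), Act (K0 := K0) r c Φ →
      ∀ (O : ValuationSubring E) (F : E ≃ₐ[k] E) (p f : ℕ), DecPt v O F p f → FixesBranch h F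

/-- The local theorem: if `v(c)` is odd then a Frobenius element at `v` fixes a branch point. -/
def StmtLOC : Prop :=
  ∀ (k K0 : Type) [Field k] [NumberField k] [Field K0] [Algebra k K0] (h : K0), GoodCurve k h →
    ∃ Bad : Set (Pr k), Bad.Finite ∧ ∀ v ∉ Bad, ∀ c : k, c ≠ 0 → IsOdd v c → HasSec h c →
      ∃ (O : ValuationSubring (AlgebraicClosure k)) (F : AlgebraicClosure k ≃ₐ[k] AlgebraicClosure k)
        (p f : ℕ), DecPt v O F p f ∧ FixesBranch h F

/-! ## Counting -/

open scoped Classical in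
/-- BLOCK DEN: if some `σ` fixes no branch point, then for the primes `v` of a set `Q` of positive
density no Frobenius element fixes a branch point. -/
def StmtDEN : Prop :=
  ∀ (k K0 : Type) [Field k] [NumberField k] [Field K0] [Algebra k K0] (h : K0), GoodCurve k h →
    ∀ σ : AlgebraicClosure k ≃ₐ[k] AlgebraicClosure k, ¬ FixesBranch h σ →
    ∀ B : ℕ → Finset (Pr k), (∀ x v, v ∈ B x ↔ nm v ≤ x) →
    ∃ (δ C : ℝ) (Q : Set (Pr k)), 0 < δ ∧
      (∀ v ∈ Q, ∀ (O : ValuationSubring (AlgebraicClosure k))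
        (F : AlgebraicClosure k ≃ₐ[k] AlgebraicClosure k) (p f : ℕ), DecPt v O F p f →
        ¬ FixesBranch h F) ∧
      ∀ x : ℕ, 2 ≤ x →
        |∑ v ∈ (B x).filter (· ∈ Q), (1 : ℝ) / nm v - δ * Real.log (Real.log x)| ≤ C

open scoped Classical in
/-- BLOCK CT: the number of classes with even valuation at all primes of a set `Q` of positive
density, up to finitely many. -/
def StmtCT : Prop :=
  ∀ (k : Type) [Field k] [NumberField k] (B : ℕ → Finset (Pr k)), (∀ x v, v ∈ B x ↔ nm v ≤ x) →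
    ∀ (δ C : ℝ) (Q Bad : Set (Pr k)), Bad.Finite → 0 < δ →
    (∀ x : ℕ, 2 ≤ x →
      |∑ v ∈ (B x).filter (· ∈ Q), (1 : ℝ) / nm v - δ * Real.log (Real.log x)| ≤ C) →
    ∃ η C' : ℝ, 0 < η ∧ ∀ X : ℕ, 3 ≤ X → ∀ T : Finset k,
      (∀ c ∈ T, ∀ c' ∈ T, (∃ d : k, c = c' * d ^ 2) → c = c') →
      (∀ c ∈ T, c ≠ 0 ∧ Pool.Agent.HG.cond c ≤ X ∧ ∀ v ∈ Q, v ∉ Bad → ¬ IsOdd v c) →
      (T.card : ℝ) ≤ C' * X / Real.log X ^ η

/-- BLOCK P1: over the projective line (`K0 = k(x)`) without rational branch point the data are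
those of project HG (`y² = f(x)`, `f` separable of even degree `≥ 4` without root in `k`). -/
def StmtP1 : Prop :=
  ∀ (k K0 : Type) [Field k] [NumberField k] [Field K0] [Algebra k K0] (h : K0), GoodCurve k h →
    (∃ x : K0, IntermediateField.adjoin k {x} = ⊤) →
    (∀ P : ValuationSubring K0, (∀ a : k, algebraMap k K0 a ∈ P) →
      (∀ z : K0, P.valuation h ≠ P.valuation z ^ 2) →
      ∃ x ∈ P, ∀ a : k, x - algebraMap k K0 a ∉ P.nonunits) →
    ∃ f : Polynomial k, f.Separable ∧ Even f.natDegree ∧ 4 ≤ f.natDegree ∧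
      (∀ a : k, Polynomial.eval a f ≠ 0) ∧ ∀ c : k, HasSec h c → Pool.Agent.HG.HasSection f c

end

end Pool.Agent.L
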