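import Pool.Agent.Helper45.L.K1
import Pool.Agent.Helper10.L.K2
import Pool.Agent.Helper17.L.K3
import Pool.Agent.Helper17.L.K4
import Pool.Agent.Helper71.L.AR
import Pool.Agent.Helper29.L.K5
import Pool.Agent.Helper37.L.TR
import Pool.Agent.Helper10.L.LOC
import Pool.Agent.Helper79.L.FR

/-!
# Project L: the local theorem
-/

set_option autoImplicit false

namespace Pool.Agent.L

theorem loc : StmtLOC :=
  stmtLOC stmtTR (k5 (stmtK2 stmtK1) stmtK3 stmtK4 stmtAR) stmtFR

end Pool.Agent.L
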