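import Pool.Agent.Helper45.L.K1c

/-!
# Block K1: weights in mixed characteristic
-/

set_option autoImplicit false
set_option linter.unusedSectionVars false

namespace Pool.Agent.L

open VC IntermediateField Module Pool.Agent.SC

noncomputable section

section

variable {E B Ω : Type} [Field E] [IsAlgClosed E] [CommRing B] [IsDomain B] [IsDedekindDomain B]
  [Algebra E B] {O : ValuationSubring E}
  {deg : B → ℕ} {Eb : Basis (degSet deg) E B} [Field Ω] [Algebra E Ω] [Algebra B Ω]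
  [IsScalarTower E B Ω] (hB : OnePt E B deg) (hE : IntBasis O deg Eb)
  [IsDedekindDomain (Bbar hB hE)]

/-- `θ_T(h u) = θ_T(u)` by the tame relation. -/
theorem theta_frob (hinj : Function.Injective (algebraMap B Ω)) {σ τ : E ≃+* E} {h T : Ω ≃+* Ω}
    {p f : ℕ} (hP : FPair O σ τ p f h T) (hh : Fx Eb σ h) (hT : Fx Eb τ T)
    {ℓ n : ℕ} (hℓ : ℓ.Prime) (hℓO : O.valuation (ℓ : E) = 1)
    {u : Ω} (hu0 : u ≠ 0) {θ θ' : IsLocalRing.ResidueField O} (hθ : Th hB hE T u θ)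
    (hθ' : Th hB hE T (h u) θ') (hθ'M : θ' ^ ℓ ^ n = 1) : θ' = θ := by
  have hp := hP.frob.prime
  have hM : ℓ ^ n ≠ 0 := pow_ne_zero _ hℓ.ne_zero
  obtain ⟨a, j, haζ, hW⟩ := hP.rel {h u} (ℓ ^ n) hM
  have hWu := hW (h u) (Finset.mem_singleton_self _)
  have hτ := hP.inert
  -- the residues
  have h1 := Th.conj hB hE hP.frob.stable hh hP.frob.frob hθ
  have h2 := Th.inv hB hE (hτ.pow a) (hT.pow a) (Th.pow hB hE hτ hT hθ' a)
  have h3 := Th.comp hB hE (hτ.pow a).inv (hT.pow a).inv h2 h1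
  have hWi : Inert O ((τ ^ a)⁻¹ * (σ * τ * σ⁻¹)) :=
    (hτ.pow a).inv.mul (Inert.conj hP.frob.stable hτ)
  have hWf : Fx Eb ((τ ^ a)⁻¹ * (σ * τ * σ⁻¹)) ((T ^ a)⁻¹ * (h * T * h⁻¹)) :=
    (hT.pow a).inv.mul ((hh.mul hT).mul hh.inv)
  have h4 := Th.pow hB hE hWi hWf h3 (p ^ j)
  -- the power acts trivially on `h u`
  have hhu0 : h u ≠ 0 := by simpa using hu0
  have h5 : Th hB hE (((T ^ a)⁻¹ * (h * T * h⁻¹)) ^ p ^ j) (h u) 1 := by
    have h6 : (1 : BO hB hE) ∉ mB hB hE := by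
      rw [← mk'_ne, mk', map_one]
      exact one_ne_zero
    exact ⟨1, 1, h6, h6, by rw [hWu], by rw [map_one, one_mul]⟩
  have h6 := h4.unique hB hE hinj hhu0 h5
  -- characteristic `p`
  have hchar : CharP (IsLocalRing.ResidueField O) p := by
    rw [CharP.charP_iff_prime_eq_zero hp]
    have h7 : ((p : ℕ) : IsLocalRing.ResidueField O) = IsLocalRing.residue O (p : O) :=
      (map_natCast _ p).symm
    rw [h7, residue_eq_zero_iff_val]
    exact hP.frob.residue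
  have : Fact p.Prime := ⟨hp⟩
  have hfinj : ∀ (m : ℕ) (x y : IsLocalRing.ResidueField O), x ^ p ^ m = y ^ p ^ m → x = y := by
    intro m x y hxy
    have h7 := iterateFrobenius_inj (IsLocalRing.ResidueField O) p m
    apply h7
    rw [iterateFrobenius_def, iterateFrobenius_def]
    exact hxy
  have h7 : (θ' ^ a)⁻¹ * θ ^ p ^ f = 1 := hfinj j _ _ (by rw [h6, one_pow])
  have hθ'0 := hθ'.ne_zero
  have h8 : θ ^ p ^ f = θ' ^ a := by
    field_simp at h7
    exact h7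
  -- `θ'` is the residue of a root of unity
  have h9 : θ' ^ a = θ' ^ p ^ f := by
    obtain ⟨t, rfl⟩ := IsLocalRing.residue_surjective θ'
    -- a root of unity congruent to `t`
    have hz : NeZero (((ℓ ^ n : ℕ)) : E) := by
      constructor
      rw [Nat.cast_pow]
      refine pow_ne_zero n fun h1 => ?_
      rw [h1, map_zero] at hℓO
      exact zero_ne_one hℓO
    obtain ⟨ζ, hζ⟩ := HasEnoughRootsOfUnity.exists_primitiveRoot E (ℓ ^ n)
    have hprod : (t : E) ^ ℓ ^ n - 1 ^ ℓ ^ n =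
        ∏ ξ ∈ Polynomial.nthRootsFinset (ℓ ^ n) (1 : E), ((t : E) - ξ * 1) :=
      hζ.pow_sub_pow_eq_prod_sub_mul (t : E) 1 (Nat.pos_of_ne_zero hM)
    have hlt : O.valuation ((t : E) ^ ℓ ^ n - 1 ^ ℓ ^ n) < 1 := by
      rw [one_pow]
      rw [← map_pow, ← sub_eq_zero, ← map_one (IsLocalRing.residue O), ← map_sub,
        residue_eq_zero_iff_val] at hθ'M
      exact hθ'M
    rw [hprod, map_prod] at hlt
    obtain ⟨ξ, hξ, hξt⟩ : ∃ ξ ∈ Polynomial.nthRootsFinset (ℓ ^ n) (1 : E),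
        O.valuation ((t : E) - ξ * 1) < 1 := by
      by_contra hcon
      push Not at hcon
      exact absurd hlt (not_lt.2 (Finset.one_le_prod' hcon))
    rw [mul_one] at hξt
    have hξM : ξ ^ ℓ ^ n = 1 := (Polynomial.mem_nthRootsFinset (Nat.pos_of_ne_zero hM) _).1 hξ
    have hξO : ξ ∈ O := by
      have h1 := congrArg O.valuation hξM
      rw [map_pow, map_one] at h1
      exact (O.valuation_le_one_iff _).1 ((pow_eq_one_iff_of_nonneg zero_le hM).1 h1).le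
    have h10 : IsLocalRing.residue O t = IsLocalRing.residue O ⟨ξ, hξO⟩ := by
      rw [← sub_eq_zero, ← map_sub, residue_eq_zero_iff_val]
      exact hξt
    rw [h10, ← map_pow, ← map_pow, ← sub_eq_zero, ← map_sub, residue_eq_zero_iff_val]
    change O.valuation (ξ ^ a - ξ ^ p ^ f) < 1
    rw [← haζ ξ hξM]
    exact hP.frob.frob ξ hξO
  exact (hfinj f _ _ (h8.trans h9)).symm

end

theorem stmtK1 : StmtK1 := by
  classical
  intro E Ω B _ _ _ _ _ _ _ _ _ _ _ deg hB hinj hdiv ℓ hℓ hroot I w hw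
  obtain ⟨Eb, F, S, hS, hEF, hO⟩ := exists_model hB
  have hw' := hw
  obtain ⟨hI0, n₀, g₀, hg₀, hwg₀⟩ := hw'
  have hw0 : w ≠ 0 := hw.ne_zero hinj hℓ.ne_zero
  have hg₀0 : g₀ ≠ 0 := by
    rintro rfl
    rw [map_zero] at hwg₀
    exact pow_ne_zero _ hw0 hwg₀
  have hℓ0 : (ℓ : E) ≠ 0 := by exact_mod_cast hℓ.ne_zero
  refine ⟨F.image (algebraMap B Ω), insert (ℓ : E) (S ∪ (Eb.repr g₀).support.image (Eb.repr g₀)),
    ?_, ?_, ?_⟩
  · intro z hz
    obtain ⟨b, -, rfl⟩ := Finset.mem_image.1 hz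
    exact ⟨b, rfl⟩
  · intro s hs
    rcases Finset.mem_insert.1 hs with rfl | hs
    · exact hℓ0
    rcases Finset.mem_union.1 hs with hs | hs
    · exact hS s hs
    · obtain ⟨i, hi, rfl⟩ := Finset.mem_image.1 hs
      exact Finsupp.mem_support_iff.1 hi
  intro O σ τ p f h T hP hSO hhZ hTZ ζ hζℓ hTw
  obtain ⟨hE, hDed⟩ := hO O fun s hs => hSO s (Finset.mem_insert_of_mem (Finset.mem_union_left _ hs))
  have hℓO : O.valuation (ℓ : E) = 1 := hSO _ (Finset.mem_insert_self _ _)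
  -- the basis is fixed
  have hfix : ∀ g : Ω ≃+* Ω, (∀ z ∈ F.image (algebraMap B Ω), g z = z) →
      ∀ m, g (algebraMap B Ω (Eb m)) = algebraMap B Ω (Eb m) := by
    intro g hg
    have key : ∀ x ∈ Submonoid.closure (F : Set B), g (algebraMap B Ω x) = algebraMap B Ω x := by
      intro x hx
      induction hx using Submonoid.closure_induction with
      | mem x hx => exact hg _ (Finset.mem_image_of_mem _ hx)
      | one => rw [map_one, map_one]
      | mul x y _ _ hx hy => rw [map_mul, map_mul, hx, hy]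
    exact fun m => key _ (hEF m)
  have hh : Fx Eb σ h := ⟨hP.hσ, hfix h hhZ⟩
  have hT : Fx Eb τ T := ⟨hP.hτ, hfix T hTZ⟩
  -- `g₀` is primitive
  have hg₀O : ∀ i, Eb.repr g₀ i ≠ 0 → O.valuation (Eb.repr g₀ i) = 1 := fun i hi =>
    hSO _ (Finset.mem_insert_of_mem (Finset.mem_union_right _
      (Finset.mem_image_of_mem _ (Finsupp.mem_support_iff.2 hi))))
  have hg₀B : g₀ ∈ BO hB hE := by
    rw [mem_BO]
    intro i
    by_cases hi : Eb.repr g₀ i = 0
    · rw [hi]; exact O.zero_mem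
    · exact (O.valuation_le_one_iff _).1 (hg₀O i hi).le
  obtain ⟨gI, hgI⟩ : ∃ gI : BO hB hE, (gI : B) = g₀ := ⟨⟨g₀, hg₀B⟩, rfl⟩
  have hgIm : gI ∉ mB hB hE := by
    intro hm
    rw [mem_mB, hgI] at hm
    apply hg₀0
    apply Eb.repr.injective
    ext i
    rw [map_zero, Finsupp.zero_apply]
    by_contra hi
    have h1 := hm i
    rw [hg₀O i hi] at h1
    exact lt_irrefl _ h1
  -- the residue of `w`
  have hM0 : ∀ n, ℓ ^ n ≠ 0 := fun n => pow_ne_zero n hℓ.ne_zero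
  have hvroot : ∀ (x : E) (M : ℕ), M ≠ 0 → x ^ M = 1 → O.valuation x = 1 := by
    intro x M hM hx
    have h1 := congrArg O.valuation hx
    rw [map_pow, map_one] at h1
    exact (pow_eq_one_iff_of_nonneg zero_le hM).1 h1
  have hvζ : O.valuation ζ = 1 := hvroot ζ ℓ hℓ.ne_zero hζℓ
  have h1m : (1 : BO hB hE) ∉ mB hB hE := by
    rw [← mk'_ne, mk', map_one]
    exact one_ne_zero
  obtain ⟨zB, hzB, hzB1, ζ', hζ', hzBc⟩ := smul_notMem hB hE hvζ h1m
  have hιc : ∀ (c : E) (y : BO hB hE), (y : B) = c • ((1 : BO hB hE) : B) →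
      ι hB hE Ω y = algebraMap E Ω c := by
    intro c y hy
    rw [ι, hy, Algebra.smul_def, map_mul, ← IsScalarTower.algebraMap_apply]
    have : algebraMap B Ω ((1 : BO hB hE) : B) = 1 := map_one _
    rw [this, mul_one]
  have hThw : Th hB hE T w (IsLocalRing.residue O ζ') := by
    refine ⟨zB, 1, hzB, h1m, ?_, ?_⟩
    · rw [hιc ζ zB hzB1, hTw]
      have : ι hB hE Ω (1 : BO hB hE) = 1 := map_one _
      rw [this, one_mul]
    · rw [hzBc, mul_one]
      have : mk' hB hE (1 : BO hB hE) = 1 := map_one _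
      rw [this, mul_one]
      rfl
  -- `J`
  set γ : B ≃+* B := hh.equiv hinj with hγ
  have hγσ : ∀ c, γ (algebraMap E B c) = algebraMap E B (σ c) := by
    intro c
    apply hinj
    rw [hγ, Fx.equiv_apply, ← hh.map, ← IsScalarTower.algebraMap_apply,
      ← IsScalarTower.algebraMap_apply, hP.hσ]
  have hγE : ∀ m, γ (Eb m) = Eb m := fun m => hinj (by
    rw [hγ, Fx.equiv_apply, ← hh.map, hh.basis])
  obtain ⟨J, hJ, hJI⟩ := frob_surj hB hE hP.frob.rank hℓ hℓO hdiv hP.frob.prime hP.frob.pos hγσ hγE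
    hP.frob.residue hP.frob.stable hP.frob.frob hP.frob.orb hw.powTor
  obtain ⟨u₀, hu₀⟩ := hroot J hJ
  obtain ⟨hJ0, m, gJ, hgJ, hugJ⟩ := hu₀
  have hgJ0 : gJ ≠ 0 := by
    rintro rfl
    rw [Ideal.span_singleton_zero] at hgJ
    exact pow_ne_zero _ hJ0 hgJ
  obtain ⟨c, g, hc, hg, hcg, -, -⟩ := exists_prim hB hE hgJ0
  have hJg : J ^ ℓ ^ m = Ideal.span {(g : B)} := by
    rw [hgJ, hcg, Algebra.smul_def, Ideal.span_singleton_mul_left_unit]
    exact (IsUnit.mk0 c hc).map (algebraMap E B)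
  obtain ⟨e, he⟩ := IsAlgClosed.exists_pow_nat_eq c (Nat.pos_of_ne_zero (hM0 m))
  have he0 : e ≠ 0 := by
    rintro rfl
    rw [zero_pow (hM0 m)] at he
    exact hc he.symm
  have heΩ : algebraMap E Ω e ≠ 0 := by simpa using he0
  obtain ⟨u, hu⟩ : ∃ u : Ω, u = u₀ / algebraMap E Ω e := ⟨_, rfl⟩
  have hug : u ^ ℓ ^ m = ι hB hE Ω g := by
    rw [hu, div_pow, hugJ, hcg, ← map_pow, he, Algebra.smul_def, map_mul,
      ← IsScalarTower.algebraMap_apply]
    have h1 : algebraMap E Ω c ≠ 0 := by simpa using hc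
    field_simp
    rfl
  have hg0 : ι hB hE Ω g ≠ 0 := ι_ne hB hE hinj hg
  have hu0 : u ≠ 0 := by
    rintro rfl
    rw [← hug, zero_pow (hM0 m)] at hg0
    exact hg0 rfl
  have hhu0 : h u ≠ 0 := by simpa using hu0
  obtain ⟨θ, hθM, hθ⟩ := exists_Th hB hE hinj hP.inert hT hP.frob.rank hℓ hℓO hJ0 hg hJg hug
  -- `h u`
  have hγJ0 : J.map (γ : B →+* B) ≠ ⊥ := by
    intro hbot
    exact hJ0 ((Ideal.map_eq_bot_iff_of_injective (f := (γ : B →+* B)) γ.injective).1 hbot)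
  have hγg : twO hB hE hP.frob.stable g ∉ mB hB hE := fun h =>
    hg ((twO_notMem hB hE hP.frob.stable).1 h)
  have hγJ : (J.map (γ : B →+* B)) ^ ℓ ^ m =
      Ideal.span {((twO hB hE hP.frob.stable g : BO hB hE) : B)} := by
    rw [← Ideal.map_pow, hJg, Ideal.map_span, Set.image_singleton]
    rfl
  have hhug : (h u) ^ ℓ ^ m = ι hB hE Ω (twO hB hE hP.frob.stable g) := by
    rw [← map_pow, hug]
    exact hh.map _
  obtain ⟨θ', hθ'M, hθ'⟩ := exists_Th hB hE hinj hP.inert hT hP.frob.rank hℓ hℓO hγJ0 hγg hγJ hhug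
  have hθθ' := theta_frob hB hE hinj hP hh hT hℓ hℓO hu0 hθ hθ' hθ'M
  subst hθθ'
  -- the relation
  obtain ⟨a₀, b₀, ha₀, hb₀, hab⟩ := hJI
  obtain ⟨ca, a, hca, ha, hcaa, -, -⟩ := exists_prim hB hE ha₀
  obtain ⟨cb, b, hcb, hb, hcbb, -, -⟩ := exists_prim hB hE hb₀
  set M := ℓ ^ (m + n₀) with hM
  have hMm : M = ℓ ^ m * ℓ ^ n₀ := pow_add _ _ _
  have hMM : M ≠ 0 := hM0 _
  have h1 : Ideal.span {ca ^ M • (((a ^ M * g ^ ℓ ^ n₀ * gI ^ ℓ ^ m : BO hB hE)) : B)} =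
      Ideal.span {cb ^ M • (((b ^ M * (twO hB hE hP.frob.stable g) ^ ℓ ^ n₀ : BO hB hE)) : B)} := by
    have h2 := congrArg (fun K => K ^ M) hab
    have h3 : J ^ M = Ideal.span {(g : B) ^ ℓ ^ n₀} := by
      rw [hMm, pow_mul, hJg, Ideal.span_singleton_pow]
    have h4 : I ^ M = Ideal.span {(gI : B) ^ ℓ ^ m} := by
      rw [hMm, mul_comm, pow_mul, hg₀, Ideal.span_singleton_pow, hgI]
    have h5 : (J.map (γ : B →+* B)) ^ M =
        Ideal.span {((twO hB hE hP.frob.stable g : BO hB hE) : B) ^ ℓ ^ n₀} := by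
      rw [hMm, pow_mul, hγJ, Ideal.span_singleton_pow]
    simp only [mul_pow, h3, h4, h5, Ideal.span_singleton_pow,
      Ideal.span_singleton_mul_span_singleton] at h2
    have h6 : ca ^ M • (((a ^ M * g ^ ℓ ^ n₀ * gI ^ ℓ ^ m : BO hB hE)) : B) =
        a₀ ^ M * ((g : B) ^ ℓ ^ n₀ * (gI : B) ^ ℓ ^ m) := by
      change ca ^ M • ((a : B) ^ M * (g : B) ^ ℓ ^ n₀ * (gI : B) ^ ℓ ^ m) = _
      rw [hcaa, smul_pow, smul_mul_assoc, mul_assoc]
    have h7 : cb ^ M • (((b ^ M * (twO hB hE hP.frob.stable g) ^ ℓ ^ n₀ : BO hB hE)) : B) =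
        b₀ ^ M * ((twO hB hE hP.frob.stable g : BO hB hE) : B) ^ ℓ ^ n₀ := by
      change cb ^ M • ((b : B) ^ M * ((twO hB hE hP.frob.stable g : BO hB hE) : B) ^ ℓ ^ n₀) = _
      rw [hcbb, smul_pow, smul_mul_assoc]
    rw [h6, h7]
    exact h2
  rw [Ideal.span_singleton_eq_span_singleton] at h1
  obtain ⟨ε, hε⟩ := h1
  obtain ⟨e₀, he₀, hεe⟩ := unit_const8 hB ε.isUnit
  set x := a ^ M * g ^ ℓ ^ n₀ * gI ^ ℓ ^ m with hx
  set y := b ^ M * (twO hB hE hP.frob.stable g) ^ ℓ ^ n₀ with hy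
  have hxm : x ∉ mB hB hE := notMem_mul hB hE (notMem_mul hB hE (notMem_pow hB hE ha _)
    (notMem_pow hB hE hg _)) (notMem_pow hB hE hgIm _)
  have hym : y ∉ mB hB hE := notMem_mul hB hE (notMem_pow hB hE hb _) (notMem_pow hB hE hγg _)
  obtain ⟨s, hs⟩ : ∃ s : E, s = (cb ^ M)⁻¹ * (e₀ * ca ^ M) := ⟨_, rfl⟩
  have hcbM : cb ^ M ≠ 0 := pow_ne_zero _ hcb
  have hsx : s • (x : B) = y := by
    rw [hs, mul_smul, mul_smul, inv_smul_eq_iff₀ hcbM, ← hε, hεe, Algebra.smul_def e₀, mul_comm]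
  have hvs : O.valuation s = 1 := val_of_smul hB hE hxm hym hsx
  obtain ⟨t, ht⟩ := IsAlgClosed.exists_pow_nat_eq s (Nat.pos_of_ne_zero hMM)
  -- in `Ω`
  have hιp : ∀ (b : BO hB hE) (m : ℕ), ι hB hE Ω (b ^ m) = ι hB hE Ω b ^ m := fun b m =>
    map_pow (algebraMap B Ω) _ _
  have hgIw : w ^ ℓ ^ n₀ = ι hB hE Ω gI := by
    rw [hwg₀, ι, hgI]
  have h2 : (ι hB hE Ω a * u * w * algebraMap E Ω t) ^ M = (ι hB hE Ω b * h u) ^ M := by
    have h3 : (ι hB hE Ω a * u * w) ^ M = ι hB hE Ω x := by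
      rw [hx, ι_mul, ι_mul, hιp, hιp, hιp, ← hug, ← hgIw, mul_pow, mul_pow, hMm, ← pow_mul,
        ← pow_mul, mul_comm (ℓ ^ n₀) (ℓ ^ m)]
    have h4 : (ι hB hE Ω b * h u) ^ M = ι hB hE Ω y := by
      rw [hy, ι_mul, hιp, hιp, ← hhug, mul_pow, hMm, ← pow_mul]
    rw [mul_pow, h3, h4, ← map_pow, ht]
    have h5 := congrArg (algebraMap B Ω) hsx
    rw [Algebra.smul_def, map_mul, ← IsScalarTower.algebraMap_apply] at h5
    rw [mul_comm]
    exact h5
  have hb0 : ι hB hE Ω b ≠ 0 := ι_ne hB hE hinj hb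
  obtain ⟨ξ, hξ⟩ := exists_const_of_pow_eq_one (E := E)
    (ζ := ι hB hE Ω a * u * w * algebraMap E Ω t / (ι hB hE Ω b * h u)) hMM (by
      rw [div_pow, h2]
      exact div_self (pow_ne_zero _ (mul_ne_zero hb0 hhu0)))
  have hξM : ξ ^ M = 1 := by
    apply (algebraMap E Ω).injective
    rw [map_pow, hξ, div_pow, h2, map_one]
    exact div_self (pow_ne_zero _ (mul_ne_zero hb0 hhu0))
  have hvt : O.valuation t = 1 := by
    have h3 := congrArg O.valuation ht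
    rw [map_pow, hvs] at h3
    exact (pow_eq_one_iff_of_nonneg zero_le hMM).1 h3
  have hvξ := hvroot ξ M hMM hξM
  obtain ⟨tB, htB, htB1, -⟩ := smul_notMem hB hE hvt h1m
  obtain ⟨xB, hxB, hxB1, -⟩ := smul_notMem hB hE hvξ h1m
  have h3 : ι hB hE Ω a * u * w * ι hB hE Ω tB = ι hB hE Ω b * h u * ι hB hE Ω xB := by
    rw [hιc t tB htB1, hιc ξ xB hxB1, hξ]
    field_simp
  have hofB : ∀ {b : BO hB hE}, b ∉ mB hB hE → Th hB hE T (ι hB hE Ω b) 1 := fun hb =>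
    Th.of_B hB hE hP.inert hT hb
  have h4 := Th.mul hB hE (Th.mul hB hE (Th.mul hB hE (hofB ha) hθ) hThw) (hofB htB)
  have h5 := Th.mul hB hE (Th.mul hB hE (hofB hb) hθ') (hofB hxB)
  rw [h3] at h4
  have hne : ι hB hE Ω b * h u * ι hB hE Ω xB ≠ 0 :=
    mul_ne_zero (mul_ne_zero hb0 hhu0) (ι_ne hB hE hinj hxB)
  have h6 := h4.unique hB hE hinj hne h5
  simp only [one_mul, mul_one] at h6
  have hθ0 := hθ.ne_zero
  have h7 : IsLocalRing.residue O ζ' = 1 := mul_left_cancel₀ hθ0 (by rw [h6, mul_one])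
  -- `ζ` is congruent to `1`
  by_contra hζ1
  have hz1 : O.valuation (1 - ζ) < 1 := by
    rw [← Valuation.map_neg, neg_sub]
    have h8 : IsLocalRing.residue O (ζ' - 1) = 0 := by rw [map_sub, h7, map_one, sub_self]
    rw [residue_eq_zero_iff_val] at h8
    have h9 : ((ζ' - 1 : O) : E) = ζ - 1 := by
      rw [← hζ']
      rfl
    rwa [h9] at h8
  have hℓF : Fact ℓ.Prime := ⟨hℓ⟩
  have hℓ1 : ℓ - 1 + 1 = ℓ := Nat.sub_add_cancel hℓ.one_le
  have hprim : IsPrimitiveRoot ζ (ℓ - 1 + 1) := by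
    rw [hℓ1, ← orderOf_eq_prime hζℓ hζ1]
    exact IsPrimitiveRoot.orderOf ζ
  have h8 : ∏ i ∈ Finset.range (ℓ - 1), (1 - ζ ^ (i + 1)) = ℓ := by
    rw [hprim.prod_one_sub_pow_eq_order]
    exact_mod_cast congrArg (Nat.cast (R := E)) hℓ1
  have h9 := congrArg O.valuation h8
  rw [hℓO, map_prod] at h9
  have hle : ∀ i, O.valuation (1 - ζ ^ (i + 1)) ≤ O.valuation (1 - ζ) := by
    intro i
    have h10 : (1 - ζ ^ (i + 1)) = (1 - ζ) * ∑ j ∈ Finset.range (i + 1), ζ ^ j := by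
      rw [mul_comm, ← geom_sum_mul_neg]
    rw [h10, map_mul]
    refine mul_le_of_le_one_right' ?_
    rw [O.valuation_le_one_iff]
    exact O.toSubring.sum_mem fun j _ => O.toSubring.pow_mem
      ((O.valuation_le_one_iff _).1 hvζ.le) j
  have hpos : 0 < ℓ - 1 := by have := hℓ.two_le; omega
  have h10 : (∏ i ∈ Finset.range (ℓ - 1), O.valuation (1 - ζ ^ (i + 1))) < 1 := by
    refine lt_of_le_of_lt (Finset.prod_le_prod' fun i _ => hle i) ?_
    rw [Finset.prod_const, Finset.card_range]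
    exact pow_lt_one₀ zero_le hz1 hpos.ne'
  rw [h9] at h10
  exact lt_irrefl _ h10

end

end Pool.Agent.L
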