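import Pool.Agent.Helper45.L.AllLoc
import Pool.Agent.Helper22.L.DEN
import Pool.Agent.Helper99.L.CT
import Pool.Agent.Helper97.L.P1
import Pool.Agent.Helper97.L.Fin
import Pool.Agent.Helper99.HG.AllR

/-!
# Project L: everything
-/

set_option autoImplicit false

namespace Pool.Agent.L

theorem fin : StmtFinL :=
  finL loc Pool.Agent.Helper22.L.den ct Pool.Agent.Helper97.L.p1 Pool.Agent.HG.finalR

end Pool.Agent.L
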