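import Pool.Agent.Helper45.L.Defs

/-!
# Block K1: the residue pairing of an inertia element
-/

set_option autoImplicit false
set_option linter.unusedSectionVars false

namespace Pool.Agent.L

open VC IntermediateField Module Pool.Agent.SC

noncomputable section

/-! ### Inertia elements -/

section Inert

variable {E : Type} [Field E] {O : ValuationSubring E}

theorem Inert.one : Inert O (1 : E ≃+* E) :=
  ⟨fun z => Iff.rfl, fun z _ => by
    rw [RingAut.one_apply, sub_self, map_zero]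
    exact zero_lt_one⟩

theorem Inert.mul {σ τ : E ≃+* E} (hσ : Inert O σ) (hτ : Inert O τ) : Inert O (σ * τ) :=
  ⟨fun z => by
    rw [RingAut.mul_apply, hσ.stab, hτ.stab], fun z hz => by
    rw [RingAut.mul_apply]
    have h1 : σ (τ z) - z = (σ (τ z) - τ z) + (τ z - z) := by ring
    rw [h1]
    exact O.valuation.map_add_lt (hσ.res _ ((hτ.stab z).2 hz)) (hτ.res z hz)⟩

theorem Inert.inv {σ : E ≃+* E} (hσ : Inert O σ) : Inert O σ⁻¹ := by
  have h0 : ∀ z, σ (σ⁻¹ z) = z := fun z => σ.apply_symm_apply z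
  have h1 : ∀ z, σ⁻¹ z ∈ O ↔ z ∈ O := fun z => by rw [← hσ.stab (σ⁻¹ z), h0]
  refine ⟨h1, fun z hz => ?_⟩
  have h2 := hσ.res _ ((h1 z).2 hz)
  rw [h0] at h2
  rw [← Valuation.map_neg, neg_sub]
  exact h2

theorem Inert.pow {σ : E ≃+* E} (hσ : Inert O σ) (n : ℕ) : Inert O (σ ^ n) := by
  induction n with
  | zero => rw [pow_zero]; exact Inert.one
  | succ n ih => rw [pow_succ]; exact ih.mul hσ

theorem val_lt_stab {σ : E ≃+* E} (hσ : ∀ z, σ z ∈ O ↔ z ∈ O) (z : E) :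
    O.valuation (σ z) < 1 ↔ O.valuation z < 1 := by
  rw [← ValuationSubring.mem_nonunits_iff, ← ValuationSubring.mem_nonunits_iff,
    ValuationSubring.mem_nonunits_iff_or, ValuationSubring.mem_nonunits_iff_or, ← map_inv₀, hσ,
    EmbeddingLike.map_eq_zero_iff]

theorem val_one_stab {σ : E ≃+* E} (hσ : ∀ z, σ z ∈ O ↔ z ∈ O) (z : E) :
    O.valuation (σ z) = 1 ↔ O.valuation z = 1 := by
  rw [eq_iff_le_not_lt, eq_iff_le_not_lt, val_lt_stab hσ, O.valuation_le_one_iff,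
    O.valuation_le_one_iff, hσ]

theorem Inert.conj {σ τ : E ≃+* E} (hσ : ∀ z, σ z ∈ O ↔ z ∈ O) (hτ : Inert O τ) :
    Inert O (σ * τ * σ⁻¹) := by
  have h0 : ∀ z, σ (σ⁻¹ z) = z := fun z => σ.apply_symm_apply z
  have h1 : ∀ z, σ⁻¹ z ∈ O ↔ z ∈ O := fun z => by rw [← hσ (σ⁻¹ z), h0]
  refine ⟨fun z => ?_, fun z hz => ?_⟩
  · rw [RingAut.mul_apply, RingAut.mul_apply, hσ, hτ.stab, h1]
  · rw [RingAut.mul_apply, RingAut.mul_apply]
    have h2 : σ (τ (σ⁻¹ z)) - z = σ (τ (σ⁻¹ z) - σ⁻¹ z) := by rw [map_sub, h0]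
    rw [h2, val_lt_stab hσ]
    exact hτ.res _ ((h1 z).2 hz)

end Inert

/-! ### The action on the ring `B` -/

section Act

variable {E B Ω : Type} [Field E] [CommRing B] [IsDomain B] [Algebra E B] {O : ValuationSubring E}
  {deg : B → ℕ} {Eb : Basis (degSet deg) E B} [Field Ω] [Algebra E Ω] [Algebra B Ω]
  [IsScalarTower E B Ω]

/-- apply `τ` to the coordinates -/
def tw (Eb : Basis (degSet deg) E B) (τ : E ≃+* E) (b : B) : B :=
  Eb.repr.symm ((Eb.repr b).mapRange τ (map_zero τ))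

theorem repr_tw (τ : E ≃+* E) (b : B) (i : degSet deg) : Eb.repr (tw Eb τ b) i = τ (Eb.repr b i) := by
  rw [tw, LinearEquiv.apply_symm_apply, Finsupp.mapRange_apply]

/-- `g` acts on the constants as `τ` and fixes the basis of `B` -/
structure Fx (Eb : Basis (degSet deg) E B) (τ : E ≃+* E) (g : Ω ≃+* Ω) : Prop where
  const : ∀ c, g (algebraMap E Ω c) = algebraMap E Ω (τ c)
  basis : ∀ m, g (algebraMap B Ω (Eb m)) = algebraMap B Ω (Eb m)

theorem Fx.map {τ : E ≃+* E} {g : Ω ≃+* Ω} (hg : Fx Eb τ g) (b : B) :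
    g (algebraMap B Ω b) = algebraMap B Ω (tw Eb τ b) := by
  classical
  have h1 : b = ∑ i ∈ (Eb.repr b).support, Eb.repr b i • Eb i := by
    conv_lhs => rw [← Eb.linearCombination_repr b]
    rw [Finsupp.linearCombination_apply, Finsupp.sum]
  have h2 : tw Eb τ b = ∑ i ∈ (Eb.repr b).support, τ (Eb.repr b i) • Eb i := by
    rw [← Eb.linearCombination_repr (tw Eb τ b), Finsupp.linearCombination_apply]
    rw [Finsupp.sum_of_support_subset (s := (Eb.repr b).support)]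
    · exact Finset.sum_congr rfl fun i _ => by rw [repr_tw]
    · intro i hi
      rw [Finsupp.mem_support_iff, repr_tw] at hi
      rw [Finsupp.mem_support_iff]
      exact fun h => hi (by rw [h, map_zero])
    · intro i _
      rw [zero_smul]
  rw [h2]
  conv_lhs => rw [h1]
  rw [map_sum, map_sum, map_sum]
  refine Finset.sum_congr rfl fun i _ => ?_
  rw [Algebra.smul_def, Algebra.smul_def, map_mul, map_mul, map_mul, hg.basis,
    ← IsScalarTower.algebraMap_apply, ← IsScalarTower.algebraMap_apply, hg.const]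

theorem Fx.one : Fx Eb (1 : E ≃+* E) (1 : Ω ≃+* Ω) := ⟨fun _ => rfl, fun _ => rfl⟩

theorem Fx.mul {σ τ : E ≃+* E} {g h : Ω ≃+* Ω} (hg : Fx Eb σ g) (hh : Fx Eb τ h) :
    Fx Eb (σ * τ) (g * h) :=
  ⟨fun c => by rw [RingAut.mul_apply, hh.const, hg.const]; rfl, fun m => by
    rw [RingAut.mul_apply, hh.basis, hg.basis]⟩

theorem Fx.inv {σ : E ≃+* E} {g : Ω ≃+* Ω} (hg : Fx Eb σ g) : Fx Eb σ⁻¹ g⁻¹ := by
  have h0 : ∀ z, g⁻¹ (g z) = z := fun z => g.symm_apply_apply z
  refine ⟨fun c => ?_, fun m => ?_⟩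
  · have h1 : algebraMap E Ω c = g (algebraMap E Ω (σ⁻¹ c)) := by
      rw [hg.const]
      congr 1
      exact (σ.apply_symm_apply c).symm
    rw [h1, h0]
  · have h1 := hg.basis m
    calc g⁻¹ (algebraMap B Ω (Eb m)) = g⁻¹ (g (algebraMap B Ω (Eb m))) := by rw [h1]
      _ = _ := h0 _

theorem Fx.pow {σ : E ≃+* E} {g : Ω ≃+* Ω} (hg : Fx Eb σ g) (n : ℕ) : Fx Eb (σ ^ n) (g ^ n) := by
  induction n with
  | zero => rw [pow_zero, pow_zero]; exact Fx.one
  | succ n ih => rw [pow_succ, pow_succ]; exact ih.mul hg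

/-- the automorphism of `B` -/
def Fx.equiv (hinj : Function.Injective (algebraMap B Ω)) {σ : E ≃+* E} {g : Ω ≃+* Ω}
    (hg : Fx Eb σ g) : B ≃+* B where
  toFun := tw Eb σ
  invFun := tw Eb σ⁻¹
  left_inv := fun b => hinj (by
    rw [← hg.inv.map, ← hg.map]
    exact g.symm_apply_apply _)
  right_inv := fun b => hinj (by
    rw [← hg.map, ← hg.inv.map]
    exact g.apply_symm_apply _)
  map_mul' := fun a b => hinj (by rw [← hg.map, map_mul, map_mul, map_mul, hg.map, hg.map])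
  map_add' := fun a b => hinj (by rw [← hg.map, map_add, map_add, map_add, hg.map, hg.map])

theorem Fx.equiv_apply (hinj : Function.Injective (algebraMap B Ω)) {σ : E ≃+* E} {g : Ω ≃+* Ω}
    (hg : Fx Eb σ g) (b : B) : hg.equiv hinj b = tw Eb σ b := rfl

section BO

variable (hB : OnePt E B deg) (hE : IntBasis O deg Eb)

theorem tw_mem {σ : E ≃+* E} (hσ : ∀ z, σ z ∈ O ↔ z ∈ O) (b : BO hB hE) :
    tw Eb σ (b : B) ∈ BO hB hE := by
  rw [mem_BO]
  intro i
  rw [repr_tw, hσ]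
  exact b.2 i

/-- the action on the integral elements -/
def twO {σ : E ≃+* E} (hσ : ∀ z, σ z ∈ O ↔ z ∈ O) (b : BO hB hE) : BO hB hE :=
  ⟨tw Eb σ (b : B), tw_mem hB hE hσ b⟩

theorem twO_notMem {σ : E ≃+* E} (hσ : ∀ z, σ z ∈ O ↔ z ∈ O) {b : BO hB hE} :
    twO hB hE hσ b ∈ mB hB hE ↔ b ∈ mB hB hE := by
  rw [mem_mB, mem_mB]
  refine forall_congr' fun i => ?_
  change O.valuation (Eb.repr (tw Eb σ (b : B)) i) < 1 ↔ _
  rw [repr_tw, val_lt_stab hσ]

/-- inertia elements act trivially on the reduction -/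
theorem mk_twO {τ : E ≃+* E} (hτ : Inert O τ) (b : BO hB hE) :
    Ideal.Quotient.mk (mB hB hE) (twO hB hE hτ.stab b) = Ideal.Quotient.mk (mB hB hE) b := by
  rw [Ideal.Quotient.eq, mem_mB]
  intro i
  change O.valuation (Eb.repr (tw Eb τ (b : B) - (b : B)) i) < 1
  rw [map_sub, Finsupp.sub_apply, repr_tw]
  exact hτ.res _ (b.2 i)

end BO

end Act

end

end Pool.Agent.L
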