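import Pool.Agent.Helper45.L.K1a

/-!
# Block K1: the residue pairing of an inertia element
-/

set_option autoImplicit false
set_option linter.unusedSectionVars false

namespace Pool.Agent.L

open VC IntermediateField Module Pool.Agent.SC

noncomputable section

section Th

variable {E B Ω : Type} [Field E] [CommRing B] [IsDomain B] [Algebra E B] {O : ValuationSubring E}
  {deg : B → ℕ} {Eb : Basis (degSet deg) E B} [Field Ω] [Algebra E Ω] [Algebra B Ω]
  [IsScalarTower E B Ω] (hB : OnePt E B deg) (hE : IntBasis O deg Eb)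

/-- the embedding of the integral elements -/
def ι (Ω : Type) [Field Ω] [Algebra B Ω] (b : BO hB hE) : Ω := algebraMap B Ω (b : B)

/-- the reduction -/
def mk' (b : BO hB hE) : Bbar hB hE := Ideal.Quotient.mk (mB hB hE) b

theorem ι_mul (a b : BO hB hE) : ι hB hE Ω (a * b) = ι hB hE Ω a * ι hB hE Ω b :=
  map_mul (algebraMap B Ω) _ _

theorem mk'_mul (a b : BO hB hE) : mk' hB hE (a * b) = mk' hB hE a * mk' hB hE b :=
  map_mul (Ideal.Quotient.mk (mB hB hE)) _ _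

theorem mk'_ne {b : BO hB hE} : mk' hB hE b ≠ 0 ↔ b ∉ mB hB hE := by
  rw [mk', Ne, Ideal.Quotient.eq_zero_iff_mem]

theorem ι_ne (hinj : Function.Injective (algebraMap B Ω)) {b : BO hB hE} (hb : b ∉ mB hB hE) :
    ι hB hE Ω b ≠ 0 := by
  intro h
  have h1 : (b : B) = 0 := hinj (by rw [map_zero]; exact h)
  exact hb (by rw [show b = 0 from Subtype.ext h1]; exact (mB hB hE).zero_mem)

/-- `θ` is the residue of `T u / u`. -/
def Th (T : Ω ≃+* Ω) (u : Ω) (θ : IsLocalRing.ResidueField O) : Prop :=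
  ∃ x y : BO hB hE, x ∉ mB hB hE ∧ y ∉ mB hB hE ∧ ι hB hE Ω y * T u = ι hB hE Ω x * u ∧
    mk' hB hE x = algebraMap (IsLocalRing.ResidueField O) (Bbar hB hE) θ * mk' hB hE y

variable [IsDomain (Bbar hB hE)]

theorem notMem_mul {a b : BO hB hE} (ha : a ∉ mB hB hE) (hb : b ∉ mB hB hE) : a * b ∉ mB hB hE := by
  rw [← mk'_ne, mk'_mul]
  exact mul_ne_zero ((mk'_ne hB hE).2 ha) ((mk'_ne hB hE).2 hb)

theorem notMem_pow {a : BO hB hE} (ha : a ∉ mB hB hE) (n : ℕ) : a ^ n ∉ mB hB hE := by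
  induction n with
  | zero =>
    rw [pow_zero, ← mk'_ne, mk', map_one]
    exact one_ne_zero
  | succ n ih => rw [pow_succ]; exact notMem_mul hB hE ih ha

theorem Th.mul {T : Ω ≃+* Ω} {u u' : Ω} {θ θ' : IsLocalRing.ResidueField O}
    (h : Th hB hE T u θ) (h' : Th hB hE T u' θ') : Th hB hE T (u * u') (θ * θ') := by
  obtain ⟨x, y, hx, hy, h1, h2⟩ := h
  obtain ⟨x', y', hx', hy', h1', h2'⟩ := h'
  refine ⟨x * x', y * y', notMem_mul hB hE hx hx', notMem_mul hB hE hy hy', ?_, ?_⟩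
  · rw [ι_mul, ι_mul, map_mul]
    linear_combination (ι hB hE Ω y' * T u') * h1 + (ι hB hE Ω x * u) * h1'
  · rw [mk'_mul, mk'_mul, map_mul, h2, h2']
    ring

theorem Th.unique (hinj : Function.Injective (algebraMap B Ω)) {T : Ω ≃+* Ω} {u : Ω} (hu : u ≠ 0)
    {θ θ' : IsLocalRing.ResidueField O} (h : Th hB hE T u θ) (h' : Th hB hE T u θ') : θ = θ' := by
  obtain ⟨x, y, hx, hy, h1, h2⟩ := h
  obtain ⟨x', y', hx', hy', h1', h2'⟩ := h'
  have h3 : ι hB hE Ω (y' * x) = ι hB hE Ω (y * x') := by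
    apply mul_right_cancel₀ hu
    rw [ι_mul, ι_mul]
    linear_combination (ι hB hE Ω y) * h1' - (ι hB hE Ω y') * h1
  have h4 : y' * x = y * x' := Subtype.ext (hinj h3)
  have h5 := congrArg (mk' hB hE) h4
  rw [mk'_mul, mk'_mul, h2, h2'] at h5
  have hy0 := (mk'_ne hB hE).2 hy
  have hy0' := (mk'_ne hB hE).2 hy'
  apply (algebraMap (IsLocalRing.ResidueField O) (Bbar hB hE)).injective
  apply mul_right_cancel₀ (mul_ne_zero hy0 hy0')
  linear_combination h5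

/-- elements of `B` -/
theorem Th.of_B {τ : E ≃+* E} {T : Ω ≃+* Ω} (hτ : Inert O τ) (hT : Fx Eb τ T) {b : BO hB hE}
    (hb : b ∉ mB hB hE) : Th hB hE T (ι hB hE Ω b) 1 := by
  refine ⟨twO hB hE hτ.stab b, b, fun h => hb ((twO_notMem hB hE hτ.stab).1 h), hb, ?_, ?_⟩
  · rw [ι, hT.map, mul_comm]
    rfl
  · rw [map_one, one_mul]
    exact mk_twO hB hE hτ b

theorem Th.comp {τ : E ≃+* E} {T T' : Ω ≃+* Ω} (hτ : Inert O τ) (hT : Fx Eb τ T) {u : Ω}
    {θ θ' : IsLocalRing.ResidueField O} (h : Th hB hE T u θ) (h' : Th hB hE T' u θ') :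
    Th hB hE (T * T') u (θ * θ') := by
  obtain ⟨x, y, hx, hy, h1, h2⟩ := h
  obtain ⟨x', y', hx', hy', h1', h2'⟩ := h'
  have hT' : ∀ b : BO hB hE, T (ι hB hE Ω b) = ι hB hE Ω (twO hB hE hτ.stab b) := fun b =>
    hT.map _
  have h3 := congrArg T h1'
  rw [map_mul, map_mul, hT', hT'] at h3
  refine ⟨x * twO hB hE hτ.stab x', y * twO hB hE hτ.stab y',
    notMem_mul hB hE hx (fun h => hx' ((twO_notMem hB hE hτ.stab).1 h)),
    notMem_mul hB hE hy (fun h => hy' ((twO_notMem hB hE hτ.stab).1 h)), ?_, ?_⟩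
  · rw [ι_mul, ι_mul, RingAut.mul_apply]
    linear_combination (ι hB hE Ω y) * h3 + (ι hB hE Ω (twO hB hE hτ.stab x')) * h1
  · have h4 : ∀ b, mk' hB hE (twO hB hE hτ.stab b) = mk' hB hE b := fun b => mk_twO hB hE hτ b
    rw [mk'_mul, mk'_mul, map_mul, h4, h4, h2, h2']
    ring

theorem Th.one {u : Ω} : Th hB hE (1 : Ω ≃+* Ω) u 1 := by
  have h1 : (1 : BO hB hE) ∉ mB hB hE := by
    rw [← mk'_ne, mk', map_one]
    exact one_ne_zero
  exact ⟨1, 1, h1, h1, rfl, by rw [map_one, one_mul]⟩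

theorem Th.pow {τ : E ≃+* E} {T : Ω ≃+* Ω} (hτ : Inert O τ) (hT : Fx Eb τ T) {u : Ω}
    {θ : IsLocalRing.ResidueField O} (h : Th hB hE T u θ) (n : ℕ) : Th hB hE (T ^ n) u (θ ^ n) := by
  induction n with
  | zero => rw [pow_zero, pow_zero]; exact Th.one hB hE
  | succ n ih =>
    rw [pow_succ', pow_succ']
    exact Th.comp hB hE hτ hT h ih

theorem Th.ne_zero {T : Ω ≃+* Ω} {u : Ω} {θ : IsLocalRing.ResidueField O} (h : Th hB hE T u θ) :
    θ ≠ 0 := by
  obtain ⟨x, y, hx, hy, h1, h2⟩ := h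
  rintro rfl
  rw [map_zero, zero_mul] at h2
  exact (mk'_ne hB hE).2 hx h2

theorem Th.inv {τ : E ≃+* E} {T : Ω ≃+* Ω} (hτ : Inert O τ) (hT : Fx Eb τ T) {u : Ω}
    {θ : IsLocalRing.ResidueField O} (h : Th hB hE T u θ) : Th hB hE T⁻¹ u θ⁻¹ := by
  have h0 := h.ne_zero
  obtain ⟨x, y, hx, hy, h1, h2⟩ := h
  have hT' : ∀ b : BO hB hE, T⁻¹ (ι hB hE Ω b) = ι hB hE Ω (twO hB hE hτ.inv.stab b) := fun b =>
    hT.inv.map _
  have h3 := congrArg (T⁻¹ : Ω ≃+* Ω) h1
  rw [map_mul, map_mul, hT', hT', show (T⁻¹ : Ω ≃+* Ω) (T u) = u from T.symm_apply_apply u] at h3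
  refine ⟨twO hB hE hτ.inv.stab y, twO hB hE hτ.inv.stab x,
    fun h => hy ((twO_notMem hB hE hτ.inv.stab).1 h),
    fun h => hx ((twO_notMem hB hE hτ.inv.stab).1 h), h3.symm, ?_⟩
  have h4 : ∀ b, mk' hB hE (twO hB hE hτ.inv.stab b) = mk' hB hE b := fun b =>
    mk_twO hB hE hτ.inv b
  rw [h4, h4, h2, ← mul_assoc, ← map_mul, inv_mul_cancel₀ h0, map_one, one_mul]

/-- conjugation by a Frobenius element -/
theorem Th.conj {σ : E ≃+* E} {h T : Ω ≃+* Ω} (hσ : ∀ z, σ z ∈ O ↔ z ∈ O) (hh : Fx Eb σ h)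
    {Q : ℕ} (hfrob : ∀ z ∈ O, O.valuation (σ z - z ^ Q) < 1) {u : Ω}
    {θ : IsLocalRing.ResidueField O} (ht : Th hB hE T u θ) :
    Th hB hE (h * T * h⁻¹) (h u) (θ ^ Q) := by
  obtain ⟨x, y, hx, hy, h1, h2⟩ := ht
  have hT' : ∀ b : BO hB hE, h (ι hB hE Ω b) = ι hB hE Ω (twO hB hE hσ b) := fun b => hh.map _
  have h3 := congrArg h h1
  rw [map_mul, map_mul, hT', hT'] at h3
  refine ⟨twO hB hE hσ x, twO hB hE hσ y, fun h => hx ((twO_notMem hB hE hσ).1 h),
    fun h => hy ((twO_notMem hB hE hσ).1 h), ?_, ?_⟩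
  · rw [RingAut.mul_apply, RingAut.mul_apply, show (h⁻¹ : Ω ≃+* Ω) (h u) = u from
      h.symm_apply_apply u]
    exact h3
  · obtain ⟨t, rfl⟩ := IsLocalRing.residue_surjective θ
    -- `x - t y` is in `mB`
    have h4 : algebraMap (IsLocalRing.ResidueField O) (Bbar hB hE) (IsLocalRing.residue O t) =
        mk' hB hE (constBO hB hE t) := rfl
    rw [h4, ← mk'_mul] at h2
    have h5 : x - constBO hB hE t * y ∈ mB hB hE := Ideal.Quotient.eq.1 h2
    have hσt : σ (t : E) ∈ O := (hσ _).2 t.2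
    have h6 : twO hB hE hσ x - constBO hB hE ⟨σ (t : E), hσt⟩ * twO hB hE hσ y ∈ mB hB hE := by
      rw [mem_mB] at h5 ⊢
      intro i
      have h7 := h5 i
      have h8 : Eb.repr ((x - constBO hB hE t * y : BO hB hE) : B) i =
          Eb.repr (x : B) i - (t : E) * Eb.repr (y : B) i := by
        change Eb.repr ((x : B) - algebraMap E B (t : E) * (y : B)) i = _
        rw [map_sub, Finsupp.sub_apply, ← Algebra.smul_def, map_smul, Finsupp.smul_apply,
          smul_eq_mul]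
      have h9 : Eb.repr ((twO hB hE hσ x - constBO hB hE ⟨σ (t : E), hσt⟩ * twO hB hE hσ y :
          BO hB hE) : B) i = σ (Eb.repr (x : B) i - (t : E) * Eb.repr (y : B) i) := by
        change Eb.repr (tw Eb σ (x : B) - algebraMap E B (σ (t : E)) * tw Eb σ (y : B)) i = _
        rw [map_sub, Finsupp.sub_apply, ← Algebra.smul_def, map_smul, Finsupp.smul_apply,
          smul_eq_mul, repr_tw, repr_tw, map_sub, map_mul]
      rw [h9, val_lt_stab hσ, ← h8]
      exact h7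
    have h7 : mk' hB hE (twO hB hE hσ x) =
        mk' hB hE (constBO hB hE ⟨σ (t : E), hσt⟩) * mk' hB hE (twO hB hE hσ y) := by
      rw [← mk'_mul]
      exact Ideal.Quotient.eq.2 h6
    rw [h7]
    congr 1
    have h8 : mk' hB hE (constBO hB hE ⟨σ (t : E), hσt⟩) =
      algebraMap (IsLocalRing.ResidueField O) (Bbar hB hE)
        (IsLocalRing.residue O ⟨σ (t : E), hσt⟩) := rfl
    rw [h8, ← map_pow]
    congr 1
    rw [← sub_eq_zero, ← map_sub, residue_eq_zero_iff_val]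
    exact hfrob _ t.2

end Th

end

end Pool.Agent.L
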