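import Pool.Agent.Helper45.L.K1b

/-!
# Block K1: existence of the residue
-/

set_option autoImplicit false
set_option linter.unusedSectionVars false

namespace Pool.Agent.L

open VC IntermediateField Module Pool.Agent.SC

noncomputable section

theorem exists_theta {κ R : Type} [Field κ] [IsAlgClosed κ] [CommRing R] [IsDomain R] [Algebra κ R]
    {X Y : R} (hY : Y ≠ 0) {M : ℕ} (hM : M ≠ 0) (h : X ^ M = Y ^ M) :
    ∃ θ : κ, θ ^ M = 1 ∧ X = algebraMap κ R θ * Y := by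
  let K := FractionRing R
  have hinj : Function.Injective (algebraMap R K) := IsFractionRing.injective R K
  have hY' : algebraMap R K Y ≠ 0 := fun h0 => hY (hinj (by rw [h0, map_zero]))
  have h1 : (algebraMap R K X / algebraMap R K Y) ^ M = 1 := by
    rw [div_pow, ← map_pow, ← map_pow, h]
    exact div_self (by rw [map_pow]; exact pow_ne_zero _ hY')
  obtain ⟨θ, hθ⟩ := exists_const_of_pow_eq_one (E := κ) hM h1
  refine ⟨θ, ?_, ?_⟩
  · apply (algebraMap κ K).injective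
    rw [map_pow, hθ, h1, map_one]
  · apply hinj
    rw [map_mul, ← IsScalarTower.algebraMap_apply, hθ, div_mul_cancel₀ _ hY']

section R5

variable {E B : Type} [Field E] [IsAlgClosed E] [CommRing B] [IsDomain B] [IsDedekindDomain B]
  [Algebra E B] {O : ValuationSubring E}
  {deg : B → ℕ} {Eb : Basis (degSet deg) E B} (hB : OnePt E B deg) (hE : IntBasis O deg Eb)
  [IsDedekindDomain (Bbar hB hE)]

/-- reduction is injective on torsion classes of `ℓ`-power order -/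
theorem principal_of_red_pow (hrk : ∀ a c : E, O.valuation a < 1 → c ≠ 0 →
      ∃ N : ℕ, O.valuation (a ^ N) < O.valuation c)
    {ℓ : ℕ} (hℓ : ℓ.Prime) (hℓO : O.valuation (ℓ : E) = 1) (n : ℕ) {I : Ideal B} (hI : I ≠ ⊥)
    (hpow : (I ^ ℓ ^ n).IsPrincipal) (hred : (redI hB hE I).IsPrincipal) : I.IsPrincipal :=
  R7.principal_of_red_pow (h := hB) (hE := hE) hℓ
    ⟨fun hI hJ => redI_mul hB hE hI hJ, fun hI => redI_ne_bot hB hE hI,
      fun hf => redI_span hB hE hf, fun hI h1 h2 => principal_of_red hB hE hrk hℓ hℓO hI h1 h2⟩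
    hI hred n hpow

/-- the scalar between two primitive elements is a unit -/
theorem val_of_smul {c : E} {x y : BO hB hE} (hx : x ∉ mB hB hE) (hy : y ∉ mB hB hE)
    (h : c • (x : B) = y) : O.valuation c = 1 := by
  have key : ∀ {c : E} {x y : BO hB hE}, x ∉ mB hB hE → c • (x : B) = y →
      O.valuation c ≤ 1 := by
    intro c x y hx h
    rw [mem_mB] at hx
    push Not at hx
    obtain ⟨i, hi⟩ := hx
    have h1 := (O.valuation_le_one_iff _).2 (y.2 i)
    rw [← h, map_smul, Finsupp.smul_apply, smul_eq_mul, map_mul] at h1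
    exact (le_mul_of_one_le_right' hi).trans h1
  have h1 := key hx h
  have hc : c ≠ 0 := by
    rintro rfl
    rw [zero_smul] at h
    exact hy (by rw [show y = 0 from Subtype.ext h.symm]; exact (mB hB hE).zero_mem)
  have h2 := key hy (c := c⁻¹) (y := x) (by rw [← h, smul_smul, inv_mul_cancel₀ hc, one_smul])
  refine le_antisymm h1 ?_
  rw [map_inv₀] at h2
  exact (inv_le_one₀ (zero_lt_iff.2 (by simpa using hc))).1 h2

/-- unit constants -/
theorem smul_notMem {c : E} (hc : O.valuation c = 1) {x : BO hB hE} (hx : x ∉ mB hB hE) :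
    ∃ y : BO hB hE, y ∉ mB hB hE ∧ (y : B) = c • (x : B) ∧ ∃ c' : O, (c' : E) = c ∧
      y = constBO hB hE c' * x := by
  have hcO : c ∈ O := (O.valuation_le_one_iff _).1 hc.le
  have h1 : ((constBO hB hE ⟨c, hcO⟩ * x : BO hB hE) : B) = c • (x : B) := by
    rw [Algebra.smul_def]
    rfl
  refine ⟨constBO hB hE ⟨c, hcO⟩ * x, ?_, h1, ⟨c, hcO⟩, rfl, rfl⟩
  intro h
  apply hx
  rw [mem_mB] at h ⊢
  intro i
  have h2 := h i
  rw [h1, map_smul, Finsupp.smul_apply, smul_eq_mul, map_mul, hc, one_mul] at h2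
  exact h2

end R5

section Ex

variable {E B Ω : Type} [Field E] [IsAlgClosed E] [CommRing B] [IsDomain B] [IsDedekindDomain B]
  [Algebra E B] {O : ValuationSubring E}
  {deg : B → ℕ} {Eb : Basis (degSet deg) E B} [Field Ω] [Algebra E Ω] [Algebra B Ω]
  [IsScalarTower E B Ω] (hB : OnePt E B deg) (hE : IntBasis O deg Eb)
  [IsDedekindDomain (Bbar hB hE)]

theorem redI_map (hinj : Function.Injective (algebraMap B Ω)) {τ : E ≃+* E} {T : Ω ≃+* Ω}
    (hτ : Inert O τ) (hT : Fx Eb τ T) (J : Ideal B) :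
    redI hB hE (J.map (hT.equiv hinj : B →+* B)) = redI hB hE J := by
  ext x
  rw [mem_redI, mem_redI]
  have h0 : ∀ y : B, y ∈ J.map (hT.equiv hinj : B →+* B) ↔ tw Eb τ⁻¹ y ∈ J := by
    intro y
    have h1 : J.map (hT.equiv hinj : B →+* B) = J.comap ((hT.equiv hinj).symm : B →+* B) :=
      Ideal.map_comap_of_equiv (hT.equiv hinj)
    rw [h1]
    rfl
  constructor
  · rintro ⟨y, hy, rfl⟩
    exact ⟨twO hB hE hτ.inv.stab y, (h0 y).1 hy, mk_twO hB hE hτ.inv y⟩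
  · rintro ⟨y, hy, rfl⟩
    refine ⟨twO hB hE hτ.stab y, (h0 _).2 ?_, mk_twO hB hE hτ y⟩
    have h1 : tw Eb τ⁻¹ (tw Eb τ (y : B)) = y := (hT.equiv hinj).symm_apply_apply (y : B)
    change tw Eb τ⁻¹ (tw Eb τ (y : B)) ∈ J
    rw [h1]
    exact hy

/-- **The residue exists** for the roots of generators of powers of torsion ideals. -/
theorem exists_Th (hinj : Function.Injective (algebraMap B Ω)) {τ : E ≃+* E} {T : Ω ≃+* Ω}
    (hτ : Inert O τ) (hT : Fx Eb τ T)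
    (hrk : ∀ a c : E, O.valuation a < 1 → c ≠ 0 → ∃ N : ℕ, O.valuation (a ^ N) < O.valuation c)
    {ℓ : ℕ} (hℓ : ℓ.Prime) (hℓO : O.valuation (ℓ : E) = 1) {n : ℕ} {J : Ideal B} (hJ0 : J ≠ ⊥)
    {g : BO hB hE} (hg : g ∉ mB hB hE) (hJ : J ^ ℓ ^ n = Ideal.span {(g : B)}) {u : Ω}
    (hu : u ^ ℓ ^ n = ι hB hE Ω g) :
    ∃ θ : IsLocalRing.ResidueField O, θ ^ ℓ ^ n = 1 ∧ Th hB hE T u θ := by
  have halg : IsAlgClosed (IsLocalRing.ResidueField O) := isAlgClosed_residueField O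
  set M := ℓ ^ n with hMd
  have hM : M ≠ 0 := pow_ne_zero _ hℓ.ne_zero
  have hM1 : M - 1 + 1 = M := Nat.sub_add_cancel (Nat.pos_of_ne_zero hM)
  set δ : B ≃+* B := hT.equiv hinj with hδ
  have hδ0 : J.map (δ : B →+* B) ≠ ⊥ := by
    intro hbot
    exact hJ0 ((Ideal.map_eq_bot_iff_of_injective (f := (δ : B →+* B)) δ.injective).1 hbot)
  have hδJ : (J.map (δ : B →+* B)) ^ M = Ideal.span {((twO hB hE hτ.stab g : BO hB hE) : B)} := by
    rw [← Ideal.map_pow, hJ, Ideal.map_span, Set.image_singleton]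
    rfl
  set K := J ^ (M - 1) * J.map (δ : B →+* B) with hK
  have hK0 : K ≠ ⊥ := mul_ne_zero (pow_ne_zero _ hJ0) hδ0
  have hKM : K ^ M = Ideal.span {(g : B) ^ (M - 1) * ((twO hB hE hτ.stab g : BO hB hE) : B)} := by
    rw [hK, mul_pow, hδJ, ← pow_mul, mul_comm (M - 1) M, pow_mul, hJ, Ideal.span_singleton_pow,
      Ideal.span_singleton_mul_span_singleton]
  have hKp : K.IsPrincipal := by
    refine principal_of_red_pow hB hE hrk hℓ hℓO n hK0 ⟨_, hKM⟩ ?_
    rw [hK, redI_mul hB hE (pow_ne_zero _ hJ0) hδ0, redI_map hB hE hinj hτ hT,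
      ← redI_mul hB hE (pow_ne_zero _ hJ0) hJ0, ← pow_succ, hM1, hJ, redI_span hB hE hg]
    exact ⟨_, rfl⟩
  obtain ⟨κ₀, hκ₀⟩ := hKp
  have hκ₀' : K = Ideal.span {κ₀} := hκ₀
  have hκ₀0 : κ₀ ≠ 0 := by
    rintro rfl
    rw [Ideal.span_singleton_zero] at hκ₀'
    exact hK0 hκ₀'
  obtain ⟨c, κ, hc, hκ, hcκ, -, -⟩ := exists_prim hB hE hκ₀0
  have hκM : Ideal.span {c ^ M • (κ : B) ^ M} =
      Ideal.span {(g : B) ^ (M - 1) * ((twO hB hE hτ.stab g : BO hB hE) : B)} := by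
    rw [← hKM, hκ₀', hcκ, Ideal.span_singleton_pow, smul_pow]
  rw [Ideal.span_singleton_eq_span_singleton] at hκM
  obtain ⟨ε, hε⟩ := hκM
  obtain ⟨e₀, he₀, hεe⟩ := unit_const8 hB ε.isUnit
  obtain ⟨e, he⟩ := IsAlgClosed.exists_pow_nat_eq (c ^ M * e₀) (Nat.pos_of_ne_zero hM)
  have hgt : g ^ (M - 1) * twO hB hE hτ.stab g ∉ mB hB hE :=
    notMem_mul hB hE (notMem_pow hB hE hg _) (fun h => hg ((twO_notMem hB hE hτ.stab).1 h))
  have h1 : e ^ M • ((κ ^ M : BO hB hE) : B) =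
      ((g ^ (M - 1) * twO hB hE hτ.stab g : BO hB hE) : B) := by
    have h2 : ((κ ^ M : BO hB hE) : B) = (κ : B) ^ M := rfl
    have h3 : ((g ^ (M - 1) * twO hB hE hτ.stab g : BO hB hE) : B) =
      (g : B) ^ (M - 1) * ((twO hB hE hτ.stab g : BO hB hE) : B) := rfl
    rw [h2, h3, ← hε, he, hεe, mul_comm (c ^ M) e₀, mul_smul, Algebra.smul_def e₀, mul_comm]
  have hve : O.valuation e = 1 := by
    have h2 := val_of_smul hB hE (notMem_pow hB hE hκ M) hgt h1
    rw [map_pow] at h2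
    exact (pow_eq_one_iff_of_nonneg zero_le hM).1 h2
  obtain ⟨κ', hκ', hκκ', -⟩ := smul_notMem hB hE hve hκ
  have h2 : κ' ^ M = g ^ (M - 1) * twO hB hE hτ.stab g := by
    apply Subtype.ext
    rw [← h1]
    change (κ' : B) ^ M = e ^ M • (κ : B) ^ M
    rw [hκκ', smul_pow]
  have hT' : T (ι hB hE Ω g) = ι hB hE Ω (twO hB hE hτ.stab g) := hT.map _
  have hιp : ∀ (b : BO hB hE) (m : ℕ), ι hB hE Ω (b ^ m) = ι hB hE Ω b ^ m := fun b m =>
    map_pow (algebraMap B Ω) _ _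
  have hg0 : ι hB hE Ω g ≠ 0 := ι_ne hB hE hinj hg
  have hu0 : u ≠ 0 := by
    rintro rfl
    rw [zero_pow hM] at hu
    exact hg0 hu.symm
  have hκ0 : ι hB hE Ω κ' ≠ 0 := ι_ne hB hE hinj hκ'
  have h3 : (ι hB hE Ω g * T u) ^ M = (ι hB hE Ω κ' * u) ^ M := by
    rw [mul_pow, mul_pow, ← map_pow, hu, hT', ← hιp κ', h2, ι_mul, hιp]
    conv_lhs => rw [← hM1, pow_succ]
    ring
  have h4 : (ι hB hE Ω g * T u / (ι hB hE Ω κ' * u)) ^ M = 1 := by
    rw [div_pow, h3]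
    exact div_self (pow_ne_zero _ (mul_ne_zero hκ0 hu0))
  obtain ⟨ζ, hζ⟩ := exists_const_of_pow_eq_one (E := E) hM h4
  have hζM : ζ ^ M = 1 := by
    apply (algebraMap E Ω).injective
    rw [map_pow, hζ, h4, map_one]
  have hvζ : O.valuation ζ = 1 := by
    have h5 := congrArg O.valuation hζM
    rw [map_pow, map_one] at h5
    exact (pow_eq_one_iff_of_nonneg zero_le hM).1 h5
  obtain ⟨x, hx, hxκ, ζ', hζ', hxc⟩ := smul_notMem hB hE hvζ hκ'
  have h5 : ι hB hE Ω g * T u = ι hB hE Ω x * u := by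
    have h6 : ι hB hE Ω x = algebraMap E Ω ζ * ι hB hE Ω κ' := by
      rw [ι, hxκ, Algebra.smul_def, map_mul, ← IsScalarTower.algebraMap_apply]
      rfl
    rw [h6, hζ]
    field_simp
  have h6 : mk' hB hE x ^ M = mk' hB hE g ^ M := by
    have h7 : ∀ (b : BO hB hE) (m : ℕ), mk' hB hE b ^ m = mk' hB hE (b ^ m) := fun b m =>
      (map_pow (Ideal.Quotient.mk (mB hB hE)) _ _).symm
    have h8 : x ^ M = κ' ^ M := by
      rw [hxc, mul_pow, ← map_pow]
      have h9 : ζ' ^ M = 1 := Subtype.ext (by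
        change (ζ' : E) ^ M = 1
        rw [hζ', hζM])
      rw [h9, map_one, one_mul]
    rw [h7, h8, h2, mk'_mul, ← h7]
    have h9 : mk' hB hE (twO hB hE hτ.stab g) = mk' hB hE g := mk_twO hB hE hτ g
    rw [h9, ← pow_succ, hM1]
  obtain ⟨θ, hθ, hθx⟩ := exists_theta (κ := IsLocalRing.ResidueField O) ((mk'_ne hB hE).2 hg) hM h6
  exact ⟨θ, hθ, x, g, hx, hg, h5, hθx⟩

end Ex

end

end Pool.Agent.L
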